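import Pool.Agent.Helper49.RU.St

set_option autoImplicit false

namespace Pool.Agent.Helper81.RU

open Pool.Agent.Helper49.RU
open MeasureTheory Filter Topology Complex
open scoped ENNReal Cardinal ComplexConjugate

theorem neg_one_zpow_even {k : ℤ} (hk : Even k) : ((-1 : ℝ)) ^ k = 1 := by
  rcases hk with ⟨m, rfl⟩
  rw [← two_mul, zpow_mul]
  norm_num

theorem rad_shift_lt {M n : ℕ} (h : M < n) (x : ℝ) : rad n (x + 1 / 2 ^ (M + 1)) = rad n x := by
  unfold rad
  obtain ⟨d, rfl⟩ := Nat.exists_eq_add_of_lt h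
  have h1 : (2 : ℝ) ^ (M + d + 1 + 1) * (x + 1 / 2 ^ (M + 1)) =
      (2 : ℝ) ^ (M + d + 1 + 1) * x + ((2 * 2 ^ d : ℤ) : ℝ) := by
    have h2 : (2 : ℝ) ^ (M + d + 1 + 1) = 2 ^ (M + 1) * (2 * 2 ^ d) := by
      ring
    have h3 : (2 : ℝ) ^ (M + 1) ≠ 0 := by positivity
    rw [h2]
    push_cast
    field_simp
  rw [h1, Int.floor_add_intCast, zpow_add₀ (by norm_num), neg_one_zpow_even (k := 2 * 2 ^ d)]
  · ring
  · exact even_two_mul _

theorem rad_shift_self (M : ℕ) (x : ℝ) : rad M (x + 1 / 2 ^ (M + 1)) = - rad M x := by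
  unfold rad
  have h1 : (2 : ℝ) ^ (M + 1) * (x + 1 / 2 ^ (M + 1)) =
      (2 : ℝ) ^ (M + 1) * x + ((1 : ℤ) : ℝ) := by
    have h3 : (2 : ℝ) ^ (M + 1) ≠ 0 := by positivity
    push_cast
    field_simp
  rw [h1, Int.floor_add_intCast, zpow_add₀ (by norm_num)]
  norm_num

theorem rad_period (n : ℕ) (x : ℝ) : rad n (x + 1) = rad n x := by
  unfold rad
  have h1 : (2 : ℝ) ^ (n + 1) * (x + 1) = (2 : ℝ) ^ (n + 1) * x + ((2 * 2 ^ n : ℤ) : ℝ) := by
    push_cast
    ring
  rw [h1, Int.floor_add_intCast, zpow_add₀ (by norm_num), neg_one_zpow_even (k := 2 * 2 ^ n)]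
  · ring
  · exact even_two_mul _

theorem hWAL : StWAL := by
  intro F hF
  set g : ℝ → ℝ := fun x => ∏ n ∈ F, rad n x with hg
  set M := F.min' hF with hM
  have hanti : ∀ x, g (x + 1 / 2 ^ (M + 1)) = - g x := by
    intro x
    simp only [hg]
    have hMF : M ∈ F := F.min'_mem hF
    rw [← Finset.mul_prod_erase F _ hMF, ← Finset.mul_prod_erase F (fun n => rad n x) hMF,
      rad_shift_self, neg_mul]
    congr 2
    refine Finset.prod_congr rfl fun n hn => ?_
    refine rad_shift_lt (lt_of_le_of_ne (F.min'_le n (Finset.mem_of_mem_erase hn)) ?_) x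
    exact fun h => (Finset.ne_of_mem_erase hn) h.symm
  have hper : Function.Periodic g 1 := by
    intro x
    simp only [hg]
    exact Finset.prod_congr rfl fun n _ => rad_period n x
  have h1 : ∫ x, g x ∂mI = ∫ x in (0:ℝ)..1, g x := by
    rw [intervalIntegral.integral_of_le zero_le_one, ← integral_Icc_eq_integral_Ioc]
  have h2 : ∫ x in (0:ℝ)..1, g (x + 1 / 2 ^ (M + 1)) = ∫ x in (0:ℝ)..1, g x := by
    rw [intervalIntegral.integral_comp_add_right]
    have := hper.intervalIntegral_add_eq (0 + 1 / 2 ^ (M + 1)) 0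
    rw [zero_add (1:ℝ)] at this
    rw [← this]
    congr 1
    ring
  have h3 : ∫ x in (0:ℝ)..1, g (x + 1 / 2 ^ (M + 1)) = - ∫ x in (0:ℝ)..1, g x := by
    rw [← intervalIntegral.integral_neg]
    exact intervalIntegral.integral_congr fun x _ => hanti x
  change ∫ x, g x ∂mI = 0
  rw [h1]
  linarith

end Pool.Agent.Helper81.RU
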